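import Pool.Agent.Lib.H2G.Defs

/-!
# Incidences and degrees in the reduced graph
-/

namespace Pool.Agent.Lib.H2G

variable {V E : Type} (H : MG V E) (t d m : ℕ) (x : V)

theorem inc_old (e : RE E t d m) (y : V) : (red H t d m x).Inc e (.old y) ↔
    (∃ h, (e = .single h 0 ∧ H.src h = y) ∨ (e = .single h (Fin.last (t + 1)) ∧ H.tgt h = y)) ∨
      ∃ l, e = .link l ∧ x = y := by
  unfold MG.Inc red
  dsimp only
  cases e with
  | single h i =>
    have hs : redSrc H t d m x (.single h i) = .old y ↔ i = 0 ∧ H.src h = y := by
      unfold redSrc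
      dsimp only
      induction i using Fin.cases with
      | zero => simp
      | succ k => simp [Fin.succ_ne_zero]
    have ht : redTgt H t d m (.single h i) = .old y ↔ i = Fin.last (t + 1) ∧ H.tgt h = y := by
      unfold redTgt
      dsimp only
      induction i using Fin.lastCases with
      | last => simp
      | cast k => simp [Fin.castSucc_ne_last]
    rw [hs, ht]
    constructor
    · rintro (⟨h1, h2⟩ | ⟨h1, h2⟩)
      · exact Or.inl ⟨h, Or.inl ⟨by rw [h1], h2⟩⟩
      · exact Or.inl ⟨h, Or.inr ⟨by rw [h1], h2⟩⟩
    · rintro (⟨h', ⟨h1, h2⟩ | ⟨h1, h2⟩⟩ | ⟨l, h1, -⟩)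
      · rw [RE.single.injEq] at h1
        exact Or.inl ⟨h1.2, by rw [h1.1]; exact h2⟩
      · rw [RE.single.injEq] at h1
        exact Or.inr ⟨h1.2, by rw [h1.1]; exact h2⟩
      · exact absurd h1 (by simp)
  | fat h i r => simp [redSrc, redTgt]
  | cyc j => simp [redSrc, redTgt]
  | link l =>
    simp only [redSrc, redTgt, RV.old.injEq, reduceCtorEq, or_false, false_and, exists_false,
      false_or, RE.link.injEq]
    constructor
    · intro h
      exact ⟨l, rfl, h⟩
    · rintro ⟨l', -, h⟩
      exact h

theorem inc_left (e : RE E t d m) (h : E) (i : Fin (t + 1)) : (red H t d m x).Inc e (.left h i) ↔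
    e = .single h i.castSucc ∨ ∃ r, e = .fat h i r := by
  unfold MG.Inc red
  dsimp only
  cases e with
  | single h' i' =>
    have hs : redSrc H t d m x (.single h' i') ≠ .left h i := by
      unfold redSrc
      dsimp only
      induction i' using Fin.cases with
      | zero => simp
      | succ k => simp
    have ht : redTgt H t d m (.single h' i') = .left h i ↔ h' = h ∧ i' = i.castSucc := by
      unfold redTgt
      dsimp only
      induction i' using Fin.lastCases with
      | last => simp [(Fin.castSucc_ne_last i).symm]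
      | cast k => simp
    rw [ht]
    simp [hs]
  | fat h' i' r =>
    simp only [redSrc, redTgt, RV.left.injEq, reduceCtorEq, or_false, false_or, RE.fat.injEq]
    constructor
    · rintro ⟨rfl, rfl⟩
      exact ⟨r, rfl, rfl, rfl⟩
    · rintro ⟨r', h1, h2, -⟩
      exact ⟨h1, h2⟩
  | cyc j => simp [redSrc, redTgt]
  | link l => simp [redSrc, redTgt]

theorem inc_right (e : RE E t d m) (h : E) (i : Fin (t + 1)) : (red H t d m x).Inc e (.right h i) ↔
    e = .single h i.succ ∨ ∃ r, e = .fat h i r := by
  unfold MG.Inc red
  dsimp only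
  cases e with
  | single h' i' =>
    have ht : redTgt H t d m (.single h' i') ≠ .right h i := by
      unfold redTgt
      dsimp only
      induction i' using Fin.lastCases with
      | last => simp
      | cast k => simp
    have hs : redSrc H t d m x (.single h' i') = .right h i ↔ h' = h ∧ i' = i.succ := by
      unfold redSrc
      dsimp only
      induction i' using Fin.cases with
      | zero => simp [(Fin.succ_ne_zero i).symm]
      | succ k => simp
    rw [hs]
    simp [ht]
  | fat h' i' r =>
    simp only [redSrc, redTgt, RV.right.injEq, reduceCtorEq, or_false, false_or, RE.fat.injEq]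
    constructor
    · rintro ⟨rfl, rfl⟩
      exact ⟨r, rfl, rfl, rfl⟩
    · rintro ⟨r', h1, h2, -⟩
      exact ⟨h1, h2⟩
  | cyc j => simp [redSrc, redTgt]
  | link l => simp [redSrc, redTgt]

theorem inc_cyc (e : RE E t d m) (j : ZMod (2 * t + 3)) : (red H t d m x).Inc e (.cyc j) ↔
    (e = .cyc j ∨ e = .cyc (j - 1)) ∨ ∃ l, e = .link l ∧ j = 0 := by
  unfold MG.Inc red
  dsimp only
  cases e with
  | single h' i' =>
    have ht : redTgt H t d m (.single h' i') ≠ .cyc j := by
      unfold redTgt
      dsimp only
      induction i' using Fin.lastCases with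
      | last => simp
      | cast k => simp
    have hs : redSrc H t d m x (.single h' i') ≠ .cyc j := by
      unfold redSrc
      dsimp only
      induction i' using Fin.cases with
      | zero => simp
      | succ k => simp
    simp [ht, hs]
  | fat h' i' r => simp [redSrc, redTgt]
  | cyc k =>
    simp only [redSrc, redTgt, RV.cyc.injEq, RE.cyc.injEq, reduceCtorEq, false_and, exists_false,
      or_false]
    rw [eq_sub_iff_add_eq]
  | link l =>
    simp only [redSrc, redTgt, RV.cyc.injEq, reduceCtorEq, or_false, false_or, RE.link.injEq]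
    constructor
    · intro h
      exact ⟨l, rfl, h.symm⟩
    · rintro ⟨l', -, h⟩
      exact h.symm

/-- a vertex of degree `n` needs `n` colours -/
theorem deg_le_of_colorable {W F : Type} (G : MG W F) {k : ℕ} (h : G.Colorable k) (v : W) :
    G.deg v ≤ k := by
  obtain ⟨c, hc⟩ := h
  have h1 : Function.Injective (fun e : {e : F // G.Inc e v} => c e.1) := by
    intro e f hef
    by_contra hne
    exact hc e.1 f.1 v (fun h => hne (Subtype.ext h)) e.2 f.2 hef
  have h2 := Nat.card_le_card_of_injective _ h1
  simpa [MG.deg] using h2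

theorem deg_old [Finite E] (y : V) :
    (red H t d m x).deg (.old y) ≤ H.deg y + Nat.card {l : Fin m // x = y} := by
  classical
  unfold MG.deg
  have hx : ∀ e : {e // (red H t d m x).Inc e (.old y)},
      ∃ s : {h // H.Inc h y} ⊕ {l : Fin m // x = y},
      match s with
      | .inl h => (e.1 = .single h.1 0 ∧ H.src h.1 = y) ∨
        (e.1 = .single h.1 (Fin.last (t + 1)) ∧ H.tgt h.1 = y)
      | .inr l => e.1 = .link l.1 := by
    rintro ⟨e, he⟩
    rcases (inc_old H t d m x e y).1 he with ⟨h, hh⟩ | ⟨l, h1, h2⟩
    · exact ⟨.inl ⟨h, by rcases hh with ⟨-, h2⟩ | ⟨-, h2⟩; exacts [Or.inl h2, Or.inr h2]⟩, hh⟩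
    · exact ⟨.inr ⟨l, h2⟩, h1⟩
  choose f hf using hx
  rw [← Nat.card_sum]
  refine Nat.card_le_card_of_injective f ?_
  intro e e' hee
  have h1 := hf e
  have h2 := hf e'
  rw [← hee] at h2
  apply Subtype.ext
  cases hfe : f e with
  | inl h =>
    rw [hfe] at h1 h2
    dsimp only at h1 h2
    rcases h1 with ⟨a1, b1⟩ | ⟨a1, b1⟩ <;> rcases h2 with ⟨a2, b2⟩ | ⟨a2, b2⟩
    · rw [a1, a2]
    · exact absurd (b1.trans b2.symm) (H.loopless _)
    · exact absurd (b2.trans b1.symm) (H.loopless _)
    · rw [a1, a2]
  | inr l =>
    rw [hfe] at h1 h2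
    dsimp only at h1 h2
    rw [h1, h2]

theorem deg_left (h : E) (i : Fin (t + 1)) : (red H t d m x).deg (.left h i) = d + 1 := by
  classical
  have : (red H t d m x).deg (.left h i) = Nat.card (Option (Fin d)) := by
    refine (Nat.card_congr (Equiv.ofBijective (fun o : Option (Fin d) =>
      (⟨o.elim (.single h i.castSucc) (fun r => .fat h i r), ?_⟩ :
        {e // (red H t d m x).Inc e (.left h i)})) ⟨?_, ?_⟩)).symm
    · rw [inc_left]
      cases o with
      | none => exact Or.inl rfl
      | some r => exact Or.inr ⟨r, rfl⟩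
    · intro o o' hoo
      rw [Subtype.mk.injEq] at hoo
      cases o <;> cases o' <;> simp_all
    · rintro ⟨e, he⟩
      rcases (inc_left H t d m x e h i).1 he with h1 | ⟨r, h1⟩
      · exact ⟨none, Subtype.ext h1.symm⟩
      · exact ⟨some r, Subtype.ext h1.symm⟩
  rw [this]
  simp

theorem deg_right (h : E) (i : Fin (t + 1)) : (red H t d m x).deg (.right h i) = d + 1 := by
  classical
  have : (red H t d m x).deg (.right h i) = Nat.card (Option (Fin d)) := by
    refine (Nat.card_congr (Equiv.ofBijective (fun o : Option (Fin d) =>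
      (⟨o.elim (.single h i.succ) (fun r => .fat h i r), ?_⟩ :
        {e // (red H t d m x).Inc e (.right h i)})) ⟨?_, ?_⟩)).symm
    · rw [inc_right]
      cases o with
      | none => exact Or.inl rfl
      | some r => exact Or.inr ⟨r, rfl⟩
    · intro o o' hoo
      rw [Subtype.mk.injEq] at hoo
      cases o <;> cases o' <;> simp_all
    · rintro ⟨e, he⟩
      rcases (inc_right H t d m x e h i).1 he with h1 | ⟨r, h1⟩
      · exact ⟨none, Subtype.ext h1.symm⟩
      · exact ⟨some r, Subtype.ext h1.symm⟩
  rw [this]
  simp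

theorem deg_cyc (j : ZMod (2 * t + 3)) : (red H t d m x).deg (.cyc j) ≤ 2 + m := by
  classical
  have hx : ∀ e : {e // (red H t d m x).Inc e (.cyc j)}, ∃ s : Bool ⊕ Fin m,
      match s with
      | .inl b => e.1 = .cyc (if b then j else j - 1)
      | .inr l => e.1 = .link l := by
    rintro ⟨e, he⟩
    rcases (inc_cyc H t d m x e j).1 he with (h | h) | ⟨l, h1, -⟩
    · exact ⟨.inl true, h⟩
    · exact ⟨.inl false, h⟩
    · exact ⟨.inr l, h1⟩
  choose f hf using hx
  have h1 : Function.Injective f := by
    intro e e' hee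
    have h1 := hf e
    have h2 := hf e'
    rw [← hee] at h2
    apply Subtype.ext
    cases hfe : f e with
    | inl b =>
      rw [hfe] at h1 h2
      dsimp only at h1 h2
      rw [h1, h2]
    | inr l =>
      rw [hfe] at h1 h2
      dsimp only at h1 h2
      rw [h1, h2]
  have h2 := Nat.card_le_card_of_injective _ h1
  simpa [MG.deg] using h2

/-- The maximum degree of the reduced graph. -/
theorem maxDeg_red [Finite E] (hm : m ≤ 1) (hd : 2 ≤ d) (hH : H.MaxDeg (d + 1))
    (hx : H.deg x + m ≤ d + 1) : (red H t d m x).MaxDeg (d + 1) := by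
  refine ⟨?_, ?_⟩
  · intro w
    cases w with
    | old y =>
      refine (deg_old H t d m x y).trans ?_
      by_cases hxy : x = y
      · have h1 : Nat.card {l : Fin m // x = y} ≤ m := by
          have := Nat.card_le_card_of_injective (fun l : {l : Fin m // x = y} => l.1)
            Subtype.val_injective
          simpa using this
        rw [← hxy] at h1 ⊢
        omega
      · have : IsEmpty {l : Fin m // x = y} := ⟨fun l => hxy l.2⟩
        rw [Nat.card_of_isEmpty, Nat.add_zero]
        exact hH.1 y
    | left h i => exact (deg_left H t d m x h i).le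
    | right h i => exact (deg_right H t d m x h i).le
    | cyc j => exact (deg_cyc H t d m x j).trans (by omega)
  · obtain ⟨v, hv⟩ := hH.2
    have hne : Nonempty {e : E // H.Inc e v} := by
      by_contra h
      rw [not_nonempty_iff] at h
      unfold MG.deg at hv
      rw [Nat.card_of_isEmpty] at hv
      omega
    obtain ⟨⟨h, -⟩⟩ := hne
    exact ⟨.left h 0, deg_left H t d m x h 0⟩

end Pool.Agent.Lib.H2G
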