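import Pool.Agent.Lib.H2G.Defs

/-!
# The odd girth of the reduced graph
-/

open Finset

namespace Pool.Agent.Lib.H2G

/-- If the vertices can be labelled by the residues modulo `g` such that the labels of the ends of every
edge differ by one, then every odd cycle has length at least `g`. -/
theorem le_of_cycle {W F : Type} (G : MG W F) (g : ℕ) (φ : W → ZMod g)
    (hφ : ∀ e, φ (G.tgt e) = φ (G.src e) + 1) (n : ℕ) (hn : Odd n) (hc : G.HasCycle n) : g ≤ n := by
  classical
  obtain ⟨h3, f, -, hf⟩ := hc
  have : NeZero n := ⟨by omega⟩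
  have h1 : ∀ i : ZMod n, ∃ ε : ℤ, (ε = 1 ∨ ε = -1) ∧ ((ε : ℤ) : ZMod g) = φ (f (i + 1)) - φ (f i) := by
    intro i
    obtain ⟨e, ⟨h4, h5⟩ | ⟨h4, h5⟩⟩ := hf i
    · refine ⟨1, Or.inl rfl, ?_⟩
      rw [← h4, ← h5, hφ]
      push_cast
      ring
    · refine ⟨-1, Or.inr rfl, ?_⟩
      rw [← h4, ← h5, hφ]
      push_cast
      ring
  choose ε hε1 hε2 using h1
  have hsum : ((∑ i, ε i : ℤ) : ZMod g) = 0 := by
    push_cast
    rw [sum_congr rfl fun i _ => hε2 i, sum_sub_distrib, sub_eq_zero]
    exact Equiv.sum_comp (Equiv.addRight (1 : ZMod n)) fun i => φ (f i)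
  have hdvd : (g : ℤ) ∣ ∑ i, ε i := (ZMod.intCast_zmod_eq_zero_iff_dvd _ _).1 hsum
  have hodd : Odd (∑ i, ε i) := by
    have hz : ∀ i, ∃ k : ℤ, ε i = 1 + 2 * k := by
      intro i
      rcases hε1 i with h | h
      · exact ⟨0, by rw [h]; norm_num⟩
      · exact ⟨-1, by rw [h]; norm_num⟩
    choose k hk using hz
    rw [sum_congr rfl fun i _ => hk i, sum_add_distrib, ← mul_sum]
    simp only [sum_const, card_univ, ZMod.card, nsmul_eq_mul, mul_one]
    have : Odd (n : ℤ) := by exact_mod_cast hn
    exact this.add_even (even_two_mul _)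
  have hne : ∑ i, ε i ≠ 0 := by
    intro h
    rw [h] at hodd
    simp at hodd
  have habs : |∑ i, ε i| ≤ n := by
    refine (abs_sum_le_sum_abs _ _).trans ?_
    have h6 : ∀ i ∈ (univ : Finset (ZMod n)), |ε i| ≤ 1 := by
      intro i _
      rcases hε1 i with h | h <;> rw [h] <;> norm_num
    refine (sum_le_sum h6).trans ?_
    simp
  have h7 : (g : ℤ) ≤ |∑ i, ε i| :=
    Int.le_of_dvd (abs_pos.2 hne) ((dvd_abs _ _).2 hdvd)
  exact_mod_cast h7.trans habs

/-- the labels -/
def lab {V E : Type} (t : ℕ) : RV V E t → ZMod (2 * t + 3)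
  | .old _ => 0
  | .left _ i => ((2 * i.val + 1 : ℕ) : ZMod (2 * t + 3))
  | .right _ i => ((2 * i.val + 2 : ℕ) : ZMod (2 * t + 3))
  | .cyc j => j + 1

variable {V E : Type} (H : MG V E) (t d m : ℕ) (x : V)

theorem lab_step (e : RE E t d m) :
    lab t ((red H t d m x).tgt e) = lab t ((red H t d m x).src e) + 1 := by
  unfold red
  dsimp only
  cases e with
  | single h i =>
    have hs : lab t (redSrc H t d m x (.single h i)) = ((2 * i.val : ℕ) : ZMod (2 * t + 3)) := by
      unfold redSrc
      dsimp only
      induction i using Fin.cases with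
      | zero => simp [lab]
      | succ k =>
        rw [Fin.cases_succ, Fin.val_succ]
        unfold lab
        dsimp only
        rw [show 2 * (k.val + 1) = 2 * k.val + 2 by ring]
    have ht : lab t (redTgt H t d m (.single h i)) = ((2 * i.val + 1 : ℕ) : ZMod (2 * t + 3)) := by
      unfold redTgt
      dsimp only
      induction i using Fin.lastCases with
      | last =>
        rw [Fin.lastCases_last, Fin.val_last]
        unfold lab
        dsimp only
        rw [show 2 * (t + 1) + 1 = 2 * t + 3 by ring, ZMod.natCast_self]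
      | cast k =>
        rw [Fin.lastCases_castSucc, Fin.val_castSucc]
        rfl
    rw [hs, ht]
    push_cast
    ring
  | fat h i r =>
    simp only [redSrc, redTgt, lab]
    push_cast
    ring
  | cyc j => simp [redSrc, redTgt, lab]
  | link l => simp [redSrc, redTgt, lab]

/-- The odd girth of the reduced graph. -/
theorem oddGirth_red : (red H t d m x).OddGirth (2 * t + 3) := by
  refine ⟨⟨t + 1, by ring⟩, ⟨by omega, fun j => .cyc j, ?_, ?_⟩, ?_⟩
  · intro i j h
    exact RV.cyc.inj h
  · intro i
    exact ⟨.cyc i, Or.inl ⟨rfl, rfl⟩⟩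
  · intro n hn hc
    exact le_of_cycle _ _ (lab t) (lab_step H t d m x) n hn hc

/-- The number of vertices of the reduced graph. -/
theorem card_RV [Finite V] [Finite E] :
    Nat.card (RV V E t) = Nat.card V + (2 * t + 2) * Nat.card E + (2 * t + 3) := by
  have e : RV V E t ≃ V ⊕ ((E × Fin (t + 1)) ⊕ ((E × Fin (t + 1)) ⊕ ZMod (2 * t + 3))) :=
    { toFun := fun w => match w with
        | .old v => .inl v
        | .left h i => .inr (.inl (h, i))
        | .right h i => .inr (.inr (.inl (h, i)))
        | .cyc j => .inr (.inr (.inr j))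
      invFun := fun w => match w with
        | .inl v => .old v
        | .inr (.inl (h, i)) => .left h i
        | .inr (.inr (.inl (h, i))) => .right h i
        | .inr (.inr (.inr j)) => .cyc j
      left_inv := fun w => by cases w <;> rfl
      right_inv := fun w => by
        rcases w with v | ⟨h, i⟩ | ⟨h, i⟩ | j <;> rfl }
  rw [Nat.card_congr e, Nat.card_sum, Nat.card_sum, Nat.card_sum, Nat.card_prod]
  simp only [Nat.card_eq_fintype_card, Fintype.card_fin, ZMod.card]
  ring

/-- The number of edges of the reduced graph. -/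
theorem card_RE [Finite E] :
    Nat.card (RE E t d m) = (t + 2 + (t + 1) * d) * Nat.card E + (2 * t + 3) + m := by
  have e : RE E t d m ≃
      (E × Fin (t + 2)) ⊕ ((E × Fin (t + 1) × Fin d) ⊕ (ZMod (2 * t + 3) ⊕ Fin m)) :=
    { toFun := fun w => match w with
        | .single h i => .inl (h, i)
        | .fat h i r => .inr (.inl (h, i, r))
        | .cyc j => .inr (.inr (.inl j))
        | .link l => .inr (.inr (.inr l))
      invFun := fun w => match w with
        | .inl (h, i) => .single h i
        | .inr (.inl (h, i, r)) => .fat h i r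
        | .inr (.inr (.inl j)) => .cyc j
        | .inr (.inr (.inr l)) => .link l
      left_inv := fun w => by cases w <;> rfl
      right_inv := fun w => by
        rcases w with ⟨h, i⟩ | ⟨h, i, r⟩ | j | l <;> rfl }
  rw [Nat.card_congr e, Nat.card_sum, Nat.card_sum, Nat.card_sum, Nat.card_prod, Nat.card_prod,
    Nat.card_prod]
  simp only [Nat.card_eq_fintype_card, Fintype.card_fin, ZMod.card]
  ring

end Pool.Agent.Lib.H2G
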