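import Pool.Agent.Lib.H2G.A1

/-!
# Colourings of the reduced graph
-/

open Finset

namespace Pool.Agent.Lib.H2G

variable {V E : Type} (H : MG V E) (t d m : ℕ) (x : V)

/-- three colours for the edges of an odd cycle -/
def kap (t k : ℕ) (j : ZMod (2 * t + 3)) : Fin (k + 3) :=
  if ZMod.val j = 2 * t + 2 then 2 else if ZMod.val j % 2 = 0 then 0 else 1

theorem kap_ne (t k : ℕ) (j : ZMod (2 * t + 3)) : kap t k (j - 1) ≠ kap t k j := by
  obtain ⟨i, rfl⟩ : ∃ i, j = i + 1 := ⟨j - 1, by ring⟩
  rw [add_sub_cancel_right]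
  have hlt : ZMod.val i < 2 * t + 3 := ZMod.val_lt i
  have h01 : (0 : Fin (k + 3)) ≠ 1 := by
    intro h
    have := congrArg Fin.val h
    simp at this
  have h02 : (0 : Fin (k + 3)) ≠ 2 := by
    intro h
    have := congrArg Fin.val h
    rw [Fin.val_zero, Fin.val_two] at this
    omega
  have h12 : (1 : Fin (k + 3)) ≠ 2 := by
    intro h
    have := congrArg Fin.val h
    rw [Fin.val_one, Fin.val_two] at this
    omega
  have h1v : ZMod.val (1 : ZMod (2 * t + 3)) = 1 := ZMod.val_one_eq_one_mod _ |>.trans (Nat.mod_eq_of_lt (by omega))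
  have hadd : ZMod.val (i + 1) = (ZMod.val i + 1) % (2 * t + 3) := by
    rw [ZMod.val_add, h1v]
  unfold kap
  by_cases h1 : ZMod.val i = 2 * t + 2
  · have h2 : ZMod.val (i + 1) = 0 := by
      rw [hadd, h1]
      exact Nat.mod_self _
    rw [if_pos h1, h2, if_neg (by omega), if_pos rfl]
    exact h02.symm
  · have h2 : ZMod.val (i + 1) = ZMod.val i + 1 := by
      rw [hadd, Nat.mod_eq_of_lt (by omega)]
    rw [if_neg h1, h2]
    by_cases h3 : ZMod.val i % 2 = 0
    · rw [if_pos h3]
      by_cases h4 : ZMod.val i + 1 = 2 * t + 2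
      · rw [if_pos h4]
        exact h02
      · rw [if_neg h4, if_neg (by omega)]
        exact h01
    · rw [if_neg h3]
      by_cases h4 : ZMod.val i + 1 = 2 * t + 2
      · rw [if_pos h4]
        exact h12
      · rw [if_neg h4, if_pos (by omega)]
        exact h01.symm

theorem kap_zero_ne (t k : ℕ) : kap t k 0 ≠ 1 := by
  unfold kap
  rw [ZMod.val_zero, if_neg (by omega), if_pos rfl]
  intro h
  have := congrArg Fin.val h
  simp at this

theorem kap_neg_one_ne (t k : ℕ) : kap t k (0 - 1) ≠ 1 := by
  have h1 : ZMod.val (0 - 1 : ZMod (2 * t + 3)) = 2 * t + 2 := by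
    rw [zero_sub]
    exact ZMod.val_neg_one (2 * t + 2)
  unfold kap
  rw [if_pos h1]
  intro h
  have := congrArg Fin.val h
  rw [Fin.val_one, Fin.val_two] at this
  omega

open Classical in
/-- The general way to colour the reduced graph: `p h` and `q h` are the colours of the first and of the
last edge of the path of `h`, and `ℓ` is the colour of the link. -/
theorem colorable_of (hm : m ≤ 1) (k : ℕ) (ℓ : Fin (k + 3)) (p q : E → Fin (k + 3))
    (F : E → Fin d → Fin (k + 3))
    (hF : ∀ h, Function.Injective (F h)) (hp : ∀ h r, F h r ≠ p h) (hq : ∀ h r, F h r ≠ q h)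
    (half : ∀ y h h', h ≠ h' → H.Inc h y → H.Inc h' y →
      (if H.src h = y then p h else q h) ≠ (if H.src h' = y then p h' else q h'))
    (hℓ : m ≠ 0 → ∀ h, H.Inc h x → (if H.src h = x then p h else q h) ≠ ℓ) :
    (red H t d m x).Colorable (k + 3) := by
  refine ⟨fun e => match e with
    | .single h i => if i = 0 then p h else q h
    | .fat h _ r => F h r
    | .cyc j => Equiv.swap 1 ℓ (kap t k j)
    | .link _ => ℓ, ?_⟩
  have hsingle : ∀ h (i : Fin (t + 2)) r, F h r ≠ (if i = 0 then p h else q h) := by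
    intro h i r
    split_ifs
    · exact hp h r
    · exact hq h r
  have hcol : ∀ e h y, ((e = RE.single h 0 ∧ H.src h = y) ∨
      (e = RE.single (d := d) (m := m) h (Fin.last (t + 1)) ∧ H.tgt h = y)) →
      (match e with
        | .single h i => if i = 0 then p h else q h
        | .fat h _ r => F h r
        | .cyc j => Equiv.swap 1 ℓ (kap t k j)
        | .link _ => ℓ : Fin (k + 3)) = (if H.src h = y then p h else q h) := by
    rintro e h y (⟨rfl, h2⟩ | ⟨rfl, h2⟩)
    · dsimp only
      rw [if_pos rfl, if_pos h2]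
    · dsimp only
      rw [if_neg (Fin.last_pos.ne'), if_neg]
      intro h3
      exact H.loopless h (h3.trans h2.symm)
  have hinc : ∀ e h y, ((e = RE.single h 0 ∧ H.src h = y) ∨
      (e = RE.single (d := d) (m := m) h (Fin.last (t + 1)) ∧ H.tgt h = y)) → H.Inc h y := by
    rintro e h y (⟨-, h2⟩ | ⟨-, h2⟩)
    exacts [Or.inl h2, Or.inr h2]
  have hlink : ∀ l l' : Fin m, l = l' := by
    intro l l'
    apply Fin.ext
    have h1 := l.2
    have h2 := l'.2
    omega
  have hswap : ∀ a : Fin (k + 3), a ≠ 1 → Equiv.swap 1 ℓ a ≠ ℓ := by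
    intro a ha h
    apply ha
    apply (Equiv.swap 1 ℓ).injective
    rw [h, Equiv.swap_apply_left]
  intro e f w hne he hf
  beta_reduce
  cases w with
  | old y =>
    rcases (inc_old H t d m x e y).1 he with ⟨h, hh⟩ | ⟨l, rfl, hxy⟩ <;>
      rcases (inc_old H t d m x f y).1 hf with ⟨h', hh'⟩ | ⟨l', rfl, hxy'⟩
    · rw [hcol e h y hh, hcol f h' y hh']
      by_cases hhh : h = h'
      · exfalso
        subst hhh
        rcases hh with ⟨a1, b1⟩ | ⟨a1, b1⟩ <;> rcases hh' with ⟨a2, b2⟩ | ⟨a2, b2⟩
        · exact hne (a1.trans a2.symm)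
        · exact H.loopless _ (b1.trans b2.symm)
        · exact H.loopless _ (b2.trans b1.symm)
        · exact hne (a1.trans a2.symm)
      · exact half y h h' hhh (hinc _ _ _ hh) (hinc _ _ _ hh')
    · rw [hcol e h y hh]
      subst hxy'
      exact hℓ (fun h0 => by have := l'.2; omega) h (hinc _ _ _ hh)
    · rw [hcol f h' y hh']
      subst hxy
      exact (hℓ (fun h0 => by have := l.2; omega) h' (hinc _ _ _ hh')).symm
    · exact absurd (by rw [hlink l l']) hne
  | left h i =>
    rcases (inc_left H t d m x e h i).1 he with rfl | ⟨r, rfl⟩ <;>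
      rcases (inc_left H t d m x f h i).1 hf with rfl | ⟨r', rfl⟩
    · exact absurd rfl hne
    · exact (hsingle h _ r').symm
    · exact hsingle h _ r
    · intro h1
      exact hne (by rw [hF h h1])
  | right h i =>
    rcases (inc_right H t d m x e h i).1 he with rfl | ⟨r, rfl⟩ <;>
      rcases (inc_right H t d m x f h i).1 hf with rfl | ⟨r', rfl⟩
    · exact absurd rfl hne
    · exact (hsingle h _ r').symm
    · exact hsingle h _ r
    · intro h1
      exact hne (by rw [hF h h1])
  | cyc j =>
    have hk : Equiv.swap 1 ℓ (kap t k (j - 1)) ≠ Equiv.swap 1 ℓ (kap t k j) := fun h =>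
      kap_ne t k j ((Equiv.swap 1 ℓ).injective h)
    rcases (inc_cyc H t d m x e j).1 he with (rfl | rfl) | ⟨l, rfl, hj⟩ <;>
      rcases (inc_cyc H t d m x f j).1 hf with (rfl | rfl) | ⟨l', rfl, hj'⟩
    · exact absurd rfl hne
    · exact hk.symm
    · rw [hj']
      exact hswap _ (kap_zero_ne t k)
    · exact hk
    · exact absurd rfl hne
    · rw [hj']
      exact hswap _ (kap_neg_one_ne t k)
    · rw [hj]
      exact (hswap _ (kap_zero_ne t k)).symm
    · rw [hj]
      exact (hswap _ (kap_neg_one_ne t k)).symm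
    · exact absurd (by rw [hlink l l']) hne

/-- A colouring of `H` gives one of the reduced graph. -/
theorem colorable_red [Finite E] (hm : m ≤ 1) (hd : 2 ≤ d) (hx : H.deg x + m ≤ d + 1)
    (hc : H.Colorable (d + 1)) : (red H t d m x).Colorable (d + 1) := by
  classical
  obtain ⟨c, hc⟩ := hc
  obtain ⟨k, rfl⟩ : ∃ k, d = k + 2 := ⟨d - 2, by omega⟩
  have hℓ : ∃ ℓ : Fin (k + 3), m ≠ 0 → ∀ h, H.Inc h x → c h ≠ ℓ := by
    by_cases h0 : m = 0
    · exact ⟨0, fun h => absurd h0 h⟩
    · by_contra hcon
      have hs : Function.Surjective (fun h : {e : E // H.Inc e x} => c h.1) := by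
        intro ℓ
        by_contra hno
        apply hcon
        refine ⟨ℓ, fun _ h hh he => hno ⟨⟨h, hh⟩, he⟩⟩
      have h1 := Nat.card_le_card_of_surjective _ hs
      rw [Nat.card_fin] at h1
      unfold MG.deg at hx
      omega
  obtain ⟨ℓ, hℓ⟩ := hℓ
  refine colorable_of H t (k + 2) m x hm k ℓ c c (fun h r => (c h).succAbove r)
    (fun h => Fin.succAbove_right_injective) (fun h r => Fin.succAbove_ne _ _)
    (fun h r => Fin.succAbove_ne _ _) ?_ ?_
  · intro y h h' hne h1 h2
    rw [ite_self, ite_self]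
    exact hc h h' y hne h1 h2
  · intro h0 h hh
    rw [ite_self]
    exact hℓ h0 h hh

/-- A colouring of the reduced graph gives one of `H`. -/
theorem colorable_of_red (hc : (red H t d m x).Colorable (d + 1)) : H.Colorable (d + 1) := by
  classical
  obtain ⟨c, hc⟩ := hc
  -- the colour of the single edges of a path is constant
  have hstep : ∀ h (i : Fin (t + 1)), c (.single h i.castSucc) = c (.single h i.succ) := by
    intro h i
    set S : Finset (Fin (d + 1)) := univ.image fun r : Fin d => c (.fat h i r) with hS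
    have hinj : Function.Injective fun r : Fin d => c (.fat h i r) := by
      intro r r' hrr
      by_contra hne
      refine hc (.fat h i r) (.fat h i r') (.left h i) ?_ ?_ ?_ hrr
      · intro h1
        exact hne (RE.fat.inj h1).2.2
      · rw [inc_left]
        exact Or.inr ⟨r, rfl⟩
      · rw [inc_left]
        exact Or.inr ⟨r', rfl⟩
    have hcard : S.card = d := by
      rw [hS, card_image_of_injective _ hinj, card_univ, Fintype.card_fin]
    have hcompl : Sᶜ.card ≤ 1 := by
      rw [card_compl, hcard, Fintype.card_fin]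
      omega
    have h1 : c (.single h i.castSucc) ∈ Sᶜ := by
      rw [mem_compl, hS, mem_image]
      rintro ⟨r, -, hr⟩
      refine hc (.fat h i r) (.single h i.castSucc) (.left h i) (by simp) ?_ ?_ hr
      · rw [inc_left]
        exact Or.inr ⟨r, rfl⟩
      · rw [inc_left]
        exact Or.inl rfl
    have h2 : c (.single h i.succ) ∈ Sᶜ := by
      rw [mem_compl, hS, mem_image]
      rintro ⟨r, -, hr⟩
      refine hc (.fat h i r) (.single h i.succ) (.right h i) (by simp) ?_ ?_ hr
      · rw [inc_right]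
        exact Or.inr ⟨r, rfl⟩
      · rw [inc_right]
        exact Or.inl rfl
    exact card_le_one.1 hcompl _ h1 _ h2
  have hconst : ∀ h (i : Fin (t + 2)), c (.single h i) = c (.single h 0) := by
    intro h i
    induction i using Fin.induction with
    | zero => rfl
    | succ i ih => rw [← hstep h i, ih]
  refine ⟨fun h => c (.single h 0), ?_⟩
  intro h h' y hne h1 h2
  -- an end edge of the path of `h` at `y`
  have hend : ∀ h, H.Inc h y → ∃ i : Fin (t + 2),
      (red H t d m x).Inc (.single h i) (.old y) := by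
    rintro h (h3 | h3)
    · exact ⟨0, (inc_old H t d m x _ y).2 (Or.inl ⟨h, Or.inl ⟨rfl, h3⟩⟩)⟩
    · exact ⟨Fin.last (t + 1), (inc_old H t d m x _ y).2 (Or.inl ⟨h, Or.inr ⟨rfl, h3⟩⟩)⟩
  obtain ⟨i, hi⟩ := hend h h1
  obtain ⟨i', hi'⟩ := hend h' h2
  have h3 := hc (.single h i) (.single h' i') (.old y) (by
    intro h4
    exact hne (RE.single.inj h4).1) hi hi'
  rwa [hconst h i, hconst h' i'] at h3

/-- The reduced graph can always be coloured with one more colour. -/
theorem colorable_red_succ [Finite E] (hm : m ≤ 1) (hd : 2 ≤ d) (hH : ∀ v, H.deg v ≤ d + 1) :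
    (red H t d m x).Colorable (d + 2) := by
  classical
  obtain ⟨k, rfl⟩ : ∃ k, d = k + 2 := ⟨d - 2, by omega⟩
  -- distinct colours at every vertex
  have h1 : ∀ v, ∃ ι : E → Fin (k + 2 + 1), ∀ h h', H.Inc h v → H.Inc h' v → ι h = ι h' → h = h' := by
    intro v
    have h2 : Nat.card {e : E // H.Inc e v} ≤ Nat.card (Fin (k + 2 + 1)) := by
      rw [Nat.card_fin]
      exact hH v
    obtain ⟨j⟩ : Nonempty ({e : E // H.Inc e v} ↪ Fin (k + 2 + 1)) := by
      have : Fintype {e : E // H.Inc e v} := Fintype.ofFinite _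
      rw [Nat.card_eq_fintype_card, Nat.card_eq_fintype_card] at h2
      exact Function.Embedding.nonempty_of_card_le h2
    refine ⟨fun h => if hh : H.Inc h v then j ⟨h, hh⟩ else 0, ?_⟩
    intro h h' hh hh' he
    beta_reduce at he
    rw [dif_pos hh, dif_pos hh'] at he
    exact congrArg Subtype.val (j.injective he)
  choose ι hι using h1
  -- the colours of the multiple edges
  have h2 : ∀ p q : Fin (k + 4), ∃ F : Fin (k + 2) → Fin (k + 4), Function.Injective F ∧
      (∀ r, F r ≠ p) ∧ ∀ r, F r ≠ q := by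
    intro p q
    have h3 : Fintype.card (Fin (k + 2)) ≤ Fintype.card {x : Fin (k + 4) // x ∉ ({p, q} : Finset _)} := by
      rw [Fintype.card_fin, Fintype.card_subtype_compl, Fintype.card_fin, Fintype.card_coe]
      have := card_le_two (a := p) (b := q)
      omega
    obtain ⟨j⟩ := Function.Embedding.nonempty_of_card_le h3
    refine ⟨fun r => (j r).1, fun r r' h => j.injective (Subtype.ext h), fun r hr => ?_,
      fun r hr => ?_⟩
    · exact (j r).2 (by beta_reduce at hr; rw [hr]; simp)
    · exact (j r).2 (by beta_reduce at hr; rw [hr]; simp)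
  choose F hF1 hF2 hF3 using h2
  have hy : ∀ y h, H.Inc h y → (if H.src h = y then (ι (H.src h) h).castSucc else
      (ι (H.tgt h) h).castSucc) = (ι y h).castSucc := by
    intro y h hh
    split_ifs with h3
    · rw [h3]
    · rw [hh.resolve_left h3]
  refine colorable_of H t (k + 2) m x hm (k + 1) (Fin.last (k + 3))
    (fun h => (ι (H.src h) h).castSucc)
    (fun h => (ι (H.tgt h) h).castSucc)
    (fun h => F (ι (H.src h) h).castSucc (ι (H.tgt h) h).castSucc)
    (fun h => hF1 _ _) (fun h r => hF2 _ _ r) (fun h r => hF3 _ _ r) ?_ ?_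
  · intro y h h' hne h1 h2
    rw [hy y h h1, hy y h' h2]
    intro h3
    exact hne (hι y h h' h1 h2 (Fin.castSucc_injective _ h3))
  · intro _ h hh
    rw [hy x h hh]
    exact Fin.castSucc_ne_last _

end Pool.Agent.Lib.H2G
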