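import Pool.Agent.Lib.H2G.Defs

/-!
# The reduced graph with a link is connected
-/

open Relation

namespace Pool.Agent.Lib.H2G

variable {V E : Type} (H : MG V E) (t d m : ℕ) (x : V)

theorem adj_symm {W F : Type} (G : MG W F) {a b : W} (h : G.Adj a b) : G.Adj b a := by
  obtain ⟨e, h | h⟩ := h
  · exact ⟨e, Or.inr h⟩
  · exact ⟨e, Or.inl h⟩

theorem rtg_symm {W F : Type} (G : MG W F) {a b : W} (h : ReflTransGen G.Adj a b) :
    ReflTransGen G.Adj b a := by
  induction h with
  | refl => exact .refl
  | tail _ hbc ih => exact .head (adj_symm G hbc) ih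

theorem src_zero (h : E) : (red H t d m x).src (.single h 0) = .old (H.src h) := rfl

theorem src_succ (h : E) (i : Fin (t + 1)) :
    (red H t d m x).src (.single h i.succ) = .right h i := rfl

theorem tgt_cast (h : E) (i : Fin (t + 1)) :
    (red H t d m x).tgt (.single h i.castSucc) = .left h i := by
  change Fin.lastCases (motive := fun _ => RV V E t) (.old (H.tgt h)) (fun k => .left h k)
    i.castSucc = _
  rw [Fin.lastCases_castSucc]

theorem tgt_last (h : E) :
    (red H t d m x).tgt (.single h (Fin.last (t + 1))) = .old (H.tgt h) := by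
  change Fin.lastCases (motive := fun _ => RV V E t) (.old (H.tgt h)) (fun k => .left h k)
    (Fin.last (t + 1)) = _
  rw [Fin.lastCases_last]

theorem left_to_right (hd : d ≠ 0) (h : E) (i : Fin (t + 1)) :
    (red H t d m x).Adj (.left h i) (.right h i) :=
  ⟨.fat h i ⟨0, Nat.pos_of_ne_zero hd⟩, Or.inl ⟨rfl, rfl⟩⟩

theorem path_left (hd : d ≠ 0) (h : E) (i : Fin (t + 1)) :
    ReflTransGen (red H t d m x).Adj (.old (H.src h)) (.left h i) := by
  induction i using Fin.induction with
  | zero =>
    refine .single ⟨.single h 0, Or.inl ⟨src_zero H t d m x h, ?_⟩⟩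
    exact tgt_cast H t d m x h 0
  | succ i ih =>
    refine (ih.tail (left_to_right H t d m x hd h _)).tail
      ⟨.single h i.castSucc.succ, Or.inl ⟨src_succ H t d m x h _, ?_⟩⟩
    rw [Fin.succ_castSucc]
    exact tgt_cast H t d m x h _

theorem path_right (hd : d ≠ 0) (h : E) (i : Fin (t + 1)) :
    ReflTransGen (red H t d m x).Adj (.old (H.src h)) (.right h i) :=
  (path_left H t d m x hd h i).tail (left_to_right H t d m x hd h i)

theorem path_end (hd : d ≠ 0) (h : E) :
    ReflTransGen (red H t d m x).Adj (.old (H.src h)) (.old (H.tgt h)) := by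
  refine (path_right H t d m x hd h (Fin.last t)).tail
    ⟨.single h (Fin.last t).succ, Or.inl ⟨src_succ H t d m x h _, ?_⟩⟩
  rw [Fin.succ_last]
  exact tgt_last H t d m x h

/-- The reduced graph of a connected graph is connected if there is a link. -/
theorem connected_red (hm : m ≠ 0) (hd : d ≠ 0) (hH : H.Connected) :
    (red H t d m x).Connected := by
  have hsymm : ∀ {a b}, ReflTransGen (red H t d m x).Adj a b →
      ReflTransGen (red H t d m x).Adj b a := fun h => rtg_symm _ h
  have hold : ∀ y, ReflTransGen (red H t d m x).Adj (.old x) (.old y) := by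
    intro y
    induction hH x y with
    | refl => exact .refl
    | tail _ hbc ih =>
      refine ih.trans ?_
      obtain ⟨h, ⟨rfl, rfl⟩ | ⟨rfl, rfl⟩⟩ := hbc
      · exact path_end H t d m x hd h
      · exact hsymm (path_end H t d m x hd h)
  have hcyc : ∀ n : ℕ, ReflTransGen (red H t d m x).Adj (.old x) (.cyc (n : ZMod (2 * t + 3))) := by
    intro n
    induction n with
    | zero =>
      refine .single ⟨.link ⟨0, Nat.pos_of_ne_zero hm⟩, Or.inl ⟨rfl, ?_⟩⟩
      rw [Nat.cast_zero]
      rfl
    | succ n ih =>
      refine ih.tail ⟨.cyc (n : ZMod (2 * t + 3)), Or.inl ⟨rfl, ?_⟩⟩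
      rw [Nat.cast_succ]
      rfl
  have hall : ∀ w, ReflTransGen (red H t d m x).Adj (.old x) w := by
    intro w
    cases w with
    | old y => exact hold y
    | left h i => exact (hold _).trans (path_left H t d m x hd h i)
    | right h i => exact (hold _).trans (path_right H t d m x hd h i)
    | cyc j =>
      have := hcyc (ZMod.val j)
      rwa [ZMod.natCast_zmod_val] at this
  exact fun a b => (hsymm (hall a)).trans (hall b)

end Pool.Agent.Lib.H2G
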