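import Pool.Agent.Lib.H2G.A2
import Pool.Agent.Lib.H2G.A3
import Pool.Agent.Lib.H2G.A5

/-!
# The reduction
-/

namespace Pool.Agent.Lib.H2G

theorem maxDeg_unique {W F : Type} {G : MG W F} {a b : ℕ} (ha : G.MaxDeg a) (hb : G.MaxDeg b) :
    a = b := by
  obtain ⟨v, hv⟩ := ha.2
  obtain ⟨w, hw⟩ := hb.2
  have h1 := ha.1 w
  have h2 := hb.1 v
  omega

theorem oddGirth_unique {W F : Type} {G : MG W F} {a b : ℕ} (ha : G.OddGirth a)
    (hb : G.OddGirth b) : a = b :=
  le_antisymm (ha.2.2 b hb.1 hb.2.1) (hb.2.2 a ha.1 ha.2.1)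

variable {V E : Type} (H : MG V E) (t d m : ℕ) (x : V)

theorem chrom_of_colorable [Finite E] (hm : m ≤ 1) (hd : 2 ≤ d) (hH : H.MaxDeg (d + 1))
    (hx : H.deg x + m ≤ d + 1) (hc : (red H t d m x).Colorable (d + 1)) :
    (red H t d m x).chromIndex = d + 1 := by
  obtain ⟨v, hv⟩ := (maxDeg_red H t d m x hm hd hH hx).2
  refine le_antisymm (Nat.sInf_le hc) ?_
  have h1 : (red H t d m x).Colorable ((red H t d m x).chromIndex) :=
    Nat.sInf_mem (s := {k | (red H t d m x).Colorable k}) ⟨_, hc⟩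
  rw [← hv]
  exact deg_le_of_colorable _ h1 v

theorem chrom_of_not_colorable [Finite E] (hm : m ≤ 1) (hd : 2 ≤ d) (hH : H.MaxDeg (d + 1))
    (hx : H.deg x + m ≤ d + 1) (hc : ¬ (red H t d m x).Colorable (d + 1)) :
    (red H t d m x).chromIndex = d + 2 := by
  obtain ⟨v, hv⟩ := (maxDeg_red H t d m x hm hd hH hx).2
  have h0 : (red H t d m x).Colorable (d + 2) := colorable_red_succ H t d m x hm hd hH.1
  refine le_antisymm (Nat.sInf_le h0) ?_
  have h1 : (red H t d m x).Colorable ((red H t d m x).chromIndex) :=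
    Nat.sInf_mem (s := {k | (red H t d m x).Colorable k}) ⟨_, h0⟩
  have h2 := deg_le_of_colorable _ h1 v
  rw [hv] at h2
  rcases Nat.lt_or_ge ((red H t d m x).chromIndex) (d + 2) with h3 | h3
  · exfalso
    have h4 : (red H t d m x).chromIndex = d + 1 := by omega
    rw [h4] at h1
    exact hc h1
  · exact h3

/-- **The reduction.** For `3 ≤ D ≤ g = 2 t + 3` and every graph `H` of maximum degree `D`, the reduced
graph has maximum degree `D`, odd girth `g`, chromatic index `D` or `D + 1`, and it attains Goldberg's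
bound if and only if `H` has no edge colouring with `D` colours; with a link at a vertex of degree less
than `D` it is connected if `H` is. -/
theorem reduction (t D m : ℕ) (hD : 3 ≤ D) (hDg : D ≤ 2 * t + 3) (hm : m ≤ 1) (V E : Type)
    [Finite V] [Finite E] (H : MG V E) (hH : H.MaxDeg D) (x : V) (hx : H.deg x + m ≤ D) :
    Nat.card (RV V E t) = Nat.card V + (2 * t + 2) * Nat.card E + (2 * t + 3) ∧
    Nat.card (RE E t (D - 1) m) = (t + 2 + (t + 1) * (D - 1)) * Nat.card E + (2 * t + 3) + m ∧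
    (m = 1 → H.Connected → (red H t (D - 1) m x).Connected) ∧
    (red H t (D - 1) m x).MaxDeg D ∧
    (red H t (D - 1) m x).OddGirth (2 * t + 3) ∧
    ((red H t (D - 1) m x).chromIndex = D ∨ (red H t (D - 1) m x).chromIndex = D + 1) ∧
    ((red H t (D - 1) m x).Attains ↔ ¬ H.Colorable D) := by
  obtain ⟨d, rfl⟩ : ∃ d, D = d + 1 := ⟨D - 1, by omega⟩
  rw [Nat.add_sub_cancel]
  have hd : 2 ≤ d := by omega
  have h1 := maxDeg_red H t d m x hm hd hH hx
  have h2 := oddGirth_red H t d m x
  have h3 : (d + 1 - 2) / (2 * t + 3 - 1) = 0 := Nat.div_eq_of_lt (by omega)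
  refine ⟨card_RV t, card_RE t d m, fun h4 => connected_red H t d m x (by omega) (by omega), h1, h2,
    ?_, ?_⟩
  · by_cases hc : (red H t d m x).Colorable (d + 1)
    · exact Or.inl (chrom_of_colorable H t d m x hm hd hH hx hc)
    · exact Or.inr (chrom_of_not_colorable H t d m x hm hd hH hx hc)
  · constructor
    · rintro ⟨D', g', h4, h5, h6⟩ hc
      have h7 := maxDeg_unique h4 h1
      have h8 := oddGirth_unique h5 h2
      rw [h7, h8, h3, chrom_of_colorable H t d m x hm hd hH hx
        (colorable_red H t d m x hm hd hx hc)] at h6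
      omega
    · intro hc
      refine ⟨d + 1, 2 * t + 3, h1, h2, ?_⟩
      rw [h3, chrom_of_not_colorable H t d m x hm hd hH hx fun h =>
        hc (colorable_of_red H t d m x h)]

end Pool.Agent.Lib.H2G
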