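import Mathlib

/-!
# Goldberg's odd-girth bound: multigraphs and the reduction (MP_cf7ece_co)
-/

namespace Pool.Agent.Lib.H2G

/-- A loopless multigraph with vertex set `V` and edge set `E`: every edge `e` has the two different
ends `src e` and `tgt e` (their order plays no role); parallel edges are allowed. -/
structure MG (V E : Type) where
  /-- one end of an edge -/
  src : E → V
  /-- the other end -/
  tgt : E → V
  /-- there are no loops -/
  loopless : ∀ e, src e ≠ tgt e

namespace MG

variable {V E : Type} (G : MG V E)

/-- `v` is an end of the edge `e`. -/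
def Inc (e : E) (v : V) : Prop := G.src e = v ∨ G.tgt e = v

/-- The degree of `v`: the number of edges with end `v`. -/
noncomputable def deg (v : V) : ℕ := Nat.card {e : E // G.Inc e v}

/-- The maximum degree of `G` is `D`. -/
def MaxDeg (D : ℕ) : Prop := (∀ v, G.deg v ≤ D) ∧ ∃ v, G.deg v = D

/-- The edges of `G` can be coloured with `k` colours so that any two different edges with a common
end have different colours. -/
def Colorable (k : ℕ) : Prop :=
  ∃ c : E → Fin k, ∀ e f v, e ≠ f → G.Inc e v → G.Inc f v → c e ≠ c f

/-- The chromatic index. -/
noncomputable def chromIndex : ℕ := sInf {k | G.Colorable k}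

/-- `x` and `y` are joined by an edge. -/
def Adj (x y : V) : Prop :=
  ∃ e, (G.src e = x ∧ G.tgt e = y) ∨ (G.src e = y ∧ G.tgt e = x)

/-- `G` is connected: any two vertices are joined by a walk. -/
def Connected : Prop := ∀ x y, Relation.ReflTransGen G.Adj x y

/-- `G` has a cycle of length `n ≥ 3`: `n` different vertices `f 0, ..., f (n - 1)`, each joined to the
next one cyclically. -/
def HasCycle (n : ℕ) : Prop :=
  3 ≤ n ∧ ∃ f : ZMod n → V, Function.Injective f ∧ ∀ i, G.Adj (f i) (f (i + 1))

/-- The odd girth of `G` is `g`: `G` has an odd cycle, and `g` is the least length of one. -/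
def OddGirth (g : ℕ) : Prop := Odd g ∧ G.HasCycle g ∧ ∀ n, Odd n → G.HasCycle n → g ≤ n

/-- `G` is not bipartite and attains Goldberg's bound
`chromatic index ≤ D + 1 + ⌊(D - 2)/(g - 1)⌋`, `D` the maximum degree, `g` the odd girth. -/
def Attains : Prop :=
  ∃ D g, G.MaxDeg D ∧ G.OddGirth g ∧ G.chromIndex = D + 1 + (D - 2) / (g - 1)

end MG

/-- The vertices of the reduced graph: the old vertices, `2 (t + 1)` new vertices for every old edge
`h` (the ends `left h i`, `right h i` of the `i`-th multiple edge on the path which replaces `h`), and
an additional cycle of length `2 t + 3`. -/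
inductive RV (V E : Type) (t : ℕ) : Type
  | old (v : V)
  | left (h : E) (i : Fin (t + 1))
  | right (h : E) (i : Fin (t + 1))
  | cyc (j : ZMod (2 * t + 3))

/-- The edges of the reduced graph: `t + 2` single edges and `t + 1` edges of multiplicity `d` for
every old edge `h`, the edges of the additional cycle, and `m` links. -/
inductive RE (E : Type) (t d m : ℕ) : Type
  | single (h : E) (i : Fin (t + 2))
  | fat (h : E) (i : Fin (t + 1)) (r : Fin d)
  | cyc (j : ZMod (2 * t + 3))
  | link (l : Fin m)

variable {V E : Type}

/-- The first end of an edge of the reduced graph: `single h 0` starts at the old vertex `src h`,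
`single h (k + 1)` at `right h k`, `fat h i r` at `left h i`, `cyc j` at `cyc j`, a link at the old
vertex `x`. -/
def redSrc (H : MG V E) (t d m : ℕ) (x : V) : RE E t d m → RV V E t
  | .single h i => Fin.cases (.old (H.src h)) (fun k => .right h k) i
  | .fat h i _ => .left h i
  | .cyc j => .cyc j
  | .link _ => .old x

/-- The second end of an edge of the reduced graph: `single h k` ends at `left h k` (`k ≤ t`), the last
edge `single h (t + 1)` at the old vertex `tgt h`, `fat h i r` at `right h i`, `cyc j` at
`cyc (j + 1)`, a link at `cyc 0`. -/
def redTgt (H : MG V E) (t d m : ℕ) : RE E t d m → RV V E t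
  | .single h i => Fin.lastCases (.old (H.tgt h)) (fun k => .left h k) i
  | .fat h i _ => .right h i
  | .cyc j => .cyc (j + 1)
  | .link _ => .cyc 0

theorem redSrc_ne_redTgt (H : MG V E) (t d m : ℕ) (x : V) (e : RE E t d m) :
    redSrc H t d m x e ≠ redTgt H t d m e := by
  cases e with
  | single h i =>
    unfold redSrc redTgt
    dsimp only
    induction i using Fin.cases with
    | zero =>
      rw [show (0 : Fin (t + 2)) = Fin.castSucc 0 from rfl, Fin.lastCases_castSucc]
      simp
    | succ k =>
      rw [Fin.cases_succ]
      rcases Fin.eq_castSucc_or_eq_last k.succ with ⟨m, hm⟩ | hm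
      · rw [hm, Fin.lastCases_castSucc]
        simp
      · rw [hm, Fin.lastCases_last]
        simp
  | fat h i r =>
    simp [redSrc, redTgt]
  | cyc j =>
    unfold redSrc redTgt
    intro h
    rw [RV.cyc.injEq] at h
    have h1 : (1 : ZMod (2 * t + 3)) = 0 := by
      have := h.symm
      rwa [add_eq_left] at this
    have h2 : (2 * t + 3) ∣ 1 := by
      rw [← ZMod.natCast_eq_zero_iff]
      exact_mod_cast h1
    have := Nat.le_of_dvd one_pos h2
    omega
  | link l =>
    simp [redSrc, redTgt]

/-- **The reduced graph.** Every edge of `H` is replaced by a path of length `2 t + 3` whose second,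
fourth, ... edges have multiplicity `d`, and a cycle of length `2 t + 3` is added; `m` parallel edges
join the old vertex `x` to the cycle (used with `m = 0`: none, and `m = 1`: one). -/
def red (H : MG V E) (t d m : ℕ) (x : V) : MG (RV V E t) (RE E t d m) where
  src := redSrc H t d m x
  tgt := redTgt H t d m
  loopless := redSrc_ne_redTgt H t d m x

end Pool.Agent.Lib.H2G
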